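import Pool.Agent.Helper36.CP.LEV

/-!
# Blueprint CP, part CN1
-/

set_option autoImplicit false

open Filter Topology MeasureTheory
open scoped ENNReal

namespace Pool.Agent.Helper36.CP

open Pool.Agent.Helper20.CP Finset

theorem sum_dg {X V : Type} [Fintype X] [Fintype V] (vt : X → V) :
    ∑ v, dg vt v = Fintype.card X := by
  classical
  unfold dg
  rw [← card_univ, card_eq_sum_card_fiberwise (f := vt) (t := univ) (fun _ _ => mem_coe.2 (mem_univ _))]

theorem prod_le {y : ℕ → ℝ} {κ β : ℝ} {J : ℕ} (hβ : β * (κ - 1) = 3) (hβ0 : 0 ≤ β)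
    (h2 : ∀ j ≤ J, 2 ≤ y j) (hs : ∀ j < J, y (j + 1) = y j ^ κ) :
    ∀ j ≤ J, ∏ r ∈ range j, (2 * y r ^ 2) ≤ y j ^ β := by
  intro j
  induction j with
  | zero =>
    intro _
    rw [prod_range_zero]
    exact Real.one_le_rpow (by linarith [h2 0 (Nat.zero_le _)]) hβ0
  | succ j ih =>
    intro hj
    have h3 := h2 j (by omega)
    have h4 : (0 : ℝ) < y j := by linarith
    rw [prod_range_succ, hs j (by omega), ← Real.rpow_mul h4.le]
    have h5 : κ * β = β + 3 := by linarith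
    rw [h5, Real.rpow_add h4]
    apply mul_le_mul (ih (by omega)) ?_ (by positivity) (by positivity)
    have h6 : y j ^ (3 : ℝ) = y j * y j ^ 2 := by
      rw [show (3 : ℝ) = ((3 : ℕ) : ℝ) by norm_num, Real.rpow_natCast]; ring
    rw [h6]
    exact mul_le_mul_of_nonneg_right h3 (by positivity)

theorem exp_le (β c g M : ℝ) (hc : 0 < c) (hg : 0 < g) :
    ∀ᶠ y : ℝ in atTop, y ^ β * Real.exp (-(c * y ^ g)) ≤ y ^ (-M) := by
  have h1 := (tendsto_rpow_mul_exp_neg_mul_atTop_nhds_zero ((β + M) / g) c hc).comp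
    (tendsto_rpow_atTop hg)
  have h2 := h1.eventually_le_const (show (0 : ℝ) < 1 by norm_num)
  filter_upwards [h2, eventually_gt_atTop 0] with y hy hy0
  simp only [Function.comp_apply] at hy
  rw [← Real.rpow_mul hy0.le, mul_div_cancel₀ _ hg.ne', Real.rpow_add hy0] at hy
  rw [Real.rpow_neg hy0.le]
  have h3 : 0 < y ^ M := Real.rpow_pos_of_pos hy0 _
  rw [le_inv_comm₀ (by positivity) h3, ← one_div, le_div_iff₀ (by positivity)]
  rw [neg_mul] at hy
  linarith

theorem sum_le {y : ℕ → ℝ} {κ K M : ℝ} {J : ℕ} (hκ : 1 < κ) (hK : 1 ≤ K) (hM : 0 ≤ M)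
    (hy : ∀ j < J, K ^ (κ ^ j : ℝ) ≤ y j) (hh : K ^ (-(M * (κ - 1))) ≤ 1 / 2) :
    ∑ j ∈ range J, y j ^ (-M) ≤ 2 * K ^ (-M) := by
  have hK0 : 0 < K := by linarith
  have h1 : ∀ j ∈ range J, y j ^ (-M) ≤ K ^ (-M) * (1 / 2) ^ j := by
    intro j hj
    have h2 := hy j (mem_range.1 hj)
    have h3 : y j ^ (-M) ≤ (K ^ (κ ^ j : ℝ)) ^ (-M) :=
      Real.rpow_le_rpow_of_nonpos (Real.rpow_pos_of_pos hK0 _) h2 (by linarith)
    refine h3.trans ?_
    rw [← Real.rpow_mul hK0.le]
    have h4 : 1 + (j : ℝ) * (κ - 1) ≤ κ ^ j := by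
      have := one_add_mul_le_pow (a := κ - 1) (by linarith) j
      simpa using this
    have h5 : K ^ (κ ^ j * -M) ≤ K ^ (-M + (-(M * (κ - 1))) * j) := by
      apply Real.rpow_le_rpow_of_exponent_le hK
      nlinarith
    refine h5.trans ?_
    rw [Real.rpow_add hK0, Real.rpow_mul hK0.le, Real.rpow_natCast]
    apply mul_le_mul_of_nonneg_left _ (Real.rpow_pos_of_pos hK0 _).le
    exact pow_le_pow_left₀ (Real.rpow_pos_of_pos hK0 _).le hh j
  refine (sum_le_sum h1).trans ?_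
  rw [← mul_sum, mul_comm]
  exact mul_le_mul_of_nonneg_right (sum_geometric_two_le J) (Real.rpow_pos_of_pos hK0 _).le

/-- `log log n` is smaller than powers -/
theorem loglog_le (δ B : ℝ) (C : ℝ) (hδ : 0 < δ) (hC : 0 < C) :
    ∀ᶠ n : ℕ in atTop, B * Real.log (Real.log n) + B ≤ C * (n : ℝ) ^ δ := by
  have h1 : (fun x : ℝ => Real.log x) =o[atTop] fun x => x ^ δ := isLittleO_log_rpow_atTop hδ
  have hc : 0 < C / (2 * (|B| + 1)) := by positivity
  have h2 := (h1.bound hc)
  have h3 := tendsto_natCast_atTop_atTop.eventually h2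
  filter_upwards [h3, eventually_ge_atTop 3] with n hn hn3
  have hn3' : (3 : ℝ) ≤ n := by exact_mod_cast hn3
  have hl1 : 1 ≤ Real.log n := by
    rw [Real.le_log_iff_exp_le (by linarith)]
    exact (Real.exp_one_lt_d9.le.trans (by norm_num)).trans hn3'
  have hll : Real.log (Real.log n) ≤ Real.log n :=
    (Real.log_le_sub_one_of_pos (by linarith)).trans (by linarith)
  have hll0 : 0 ≤ Real.log (Real.log n) := Real.log_nonneg hl1
  rw [Real.norm_of_nonneg (by linarith), Real.norm_of_nonneg (Real.rpow_nonneg (by linarith) _)] at hn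
  have hB : B ≤ |B| := le_abs_self B
  have h4 : B * Real.log (Real.log n) + B ≤ 2 * (|B| * Real.log n) := by
    have h5 : B * Real.log (Real.log n) ≤ |B| * Real.log n :=
      mul_le_mul hB hll hll0 (abs_nonneg _)
    have h6 : B ≤ |B| * Real.log n := by nlinarith [abs_nonneg B]
    linarith
  refine h4.trans ?_
  have h7 : |B| * Real.log n ≤ |B| * (C / (2 * (|B| + 1)) * (n : ℝ) ^ δ) :=
    mul_le_mul_of_nonneg_left hn (abs_nonneg _)
  have h8 : |B| * (C / (2 * (|B| + 1)) * (n : ℝ) ^ δ) ≤ C / 2 * (n : ℝ) ^ δ := by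
    have h9 : |B| * (C / (2 * (|B| + 1))) ≤ C / 2 := by
      rw [mul_div_assoc', div_le_div_iff₀ (by positivity) (by norm_num)]
      nlinarith [abs_nonneg B]
    calc |B| * (C / (2 * (|B| + 1)) * (n : ℝ) ^ δ) = |B| * (C / (2 * (|B| + 1))) * (n : ℝ) ^ δ := by ring
      _ ≤ C / 2 * (n : ℝ) ^ δ := mul_le_mul_of_nonneg_right h9 (Real.rpow_nonneg (by linarith) _)
  linarith

/-- Part CN1. -/
theorem cn1 (hclimb : S_CLIMB) : S_CN1 := by
  intro a α κ p A c2 ha ha1 hα2 hαa hκ haκ hp hp1 hA hc2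
  have hα0 : 0 < α := by linarith
  have hα1 : α ≤ 1 := by nlinarith
  have hκ0 : 0 < κ := by linarith
  have hlκ : 0 < Real.log κ := Real.log_pos hκ
  set M := 2 * κ + 1 with hM
  set β := 3 / (κ - 1) with hβ
  have hβ1 : β * (κ - 1) = 3 := by rw [hβ]; field_simp [show κ - 1 ≠ 0 by linarith]
  have hβ0 : 0 ≤ β := div_nonneg (by norm_num) (by linarith)
  have hM0 : 0 < M := by linarith
  obtain ⟨Y0, hY0⟩ := eventually_atTop.1 (exp_le β (p * c2 / (16 * A)) (1 - a * κ) M
    (by positivity) (by linarith))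
  have hK1 : ∀ᶠ K : ℝ in atTop, K ^ (-(M * (κ - 1))) ≤ 1 / 2 :=
    (tendsto_rpow_neg_atTop (mul_pos hM0 (by linarith))).eventually_le_const (by norm_num)
  obtain ⟨K1, hK1⟩ := eventually_atTop.1 hK1
  refine ⟨max (max Y0 K1) (Real.exp 1), fun K hK => ?_⟩
  have hKe : Real.exp 1 ≤ K := (le_max_right _ _).trans hK
  have hKY : Y0 ≤ K := ((le_max_left _ _).trans (le_max_left _ _)).trans hK
  have hKK : K1 ≤ K := ((le_max_right _ _).trans (le_max_left _ _)).trans hK
  have hK2 : 2 ≤ K := by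
    have := Real.add_one_le_exp (1 : ℝ); linarith
  obtain ⟨N1, hN1⟩ := lev α κ K hα0 hα1 hκ hKe
  obtain ⟨N2, hN2⟩ := eventually_atTop.1 (loglog_le (1 - α * (1 + a)) (1 / Real.log κ + 1) (c2 / 2)
    (by linarith) (by positivity))
  obtain ⟨N3, hN3⟩ := eventually_atTop.1 (loglog_le 1 (2 / Real.log κ + 1) 1 (by norm_num)
    (by norm_num))
  have hexp : 0 < 1 - a * α - α / κ := by
    have h1 : α / κ < α := by rw [div_lt_iff₀ hκ0]; nlinarith
    nlinarith
  obtain ⟨N4, hN4⟩ := eventually_atTop.1 (((tendsto_rpow_atTop hexp).comp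
    tendsto_natCast_atTop_atTop).eventually_ge_atTop (4 / c2))
  refine ⟨max (max N1 N2) (max (max N3 N4) 3), fun n hn => ?_⟩
  have hn1 : N1 ≤ n := ((le_max_left _ _).trans (le_max_left _ _)).trans hn
  have hn2 : N2 ≤ n := ((le_max_right _ _).trans (le_max_left _ _)).trans hn
  have hn3 : N3 ≤ n :=
    (((le_max_left _ _).trans (le_max_left _ _)).trans (le_max_right _ _)).trans hn
  have hn4 : N4 ≤ n :=
    (((le_max_right _ _).trans (le_max_left _ _)).trans (le_max_right _ _)).trans hn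
  have hn5 : 3 ≤ n := ((le_max_right _ _).trans (le_max_right _ _)).trans hn
  have hnR : (3 : ℝ) ≤ n := by exact_mod_cast hn5
  have hn0 : (0 : ℝ) < n := by linarith
  obtain ⟨hy1, hy2, hstep, hyJ, hyj, hJ⟩ := hN1 n hn1
  have e2 := hN2 n hn2
  have e3 := hN3 n hn3
  have e4 := hN4 n hn4
  simp only [Function.comp_apply] at e4
  clear hN1 hN2 hN3 hN4
  intro X V _ _ _ _ vt hV hreg ρ _ Ch hCh hρ v hv
  subst hV
  set n := Fintype.card V with hnV
  set J := Jn α κ K n with hJdef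
  set y := yl α κ K n with hydef
  have hll0 : 0 ≤ Real.log (Real.log n) := by
    apply Real.log_nonneg
    rw [Real.le_log_iff_exp_le hn0]
    exact (Real.exp_one_lt_d9.le.trans (by norm_num)).trans hnR
  -- the number of levels is small
  have hJ1 : (J : ℝ) + 1 ≤ c2 / 2 * (n : ℝ) ^ (1 - α * (1 + a)) := by
    refine le_trans ?_ e2
    have : Real.log (Real.log n) / Real.log κ = 1 / Real.log κ * Real.log (Real.log n) := by ring
    rw [this] at hJ
    have h1 : 0 < 1 / Real.log κ := by positivity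
    nlinarith
  have hJ2 : 2 * J + 1 ≤ n := by
    have h1 : 2 * (J : ℝ) + 1 ≤ n := by
      rw [Real.rpow_one, one_mul] at e3
      refine le_trans ?_ e3
      have : Real.log (Real.log n) / Real.log κ = 1 / Real.log κ * Real.log (Real.log n) := by ring
      rw [this] at hJ
      have h1 : 0 < 1 / Real.log κ := by positivity
      have h2 : 2 / Real.log κ = 2 * (1 / Real.log κ) := by ring
      rw [h2]
      nlinarith
    exact_mod_cast h1
  -- half-edges
  have hXV : (Fintype.card X : ℝ) = ∑ v, (dg vt v : ℝ) := by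
    rw [← sum_dg vt]; push_cast; rfl
  have hXA : (Fintype.card X : ℝ) ≤ A * n := by rw [hXV]; exact hreg.sum
  have hX2 : 2 * n ≤ Fintype.card X := by
    rw [← sum_dg vt, hnV, ← card_univ, mul_comm, ← smul_eq_mul, ← sum_const]
    exact sum_le_sum fun v _ => hreg.two v
  have hX2' : 2 * (n : ℝ) ≤ Fintype.card X := by exact_mod_cast hX2
  have hX0 : (0 : ℝ) < Fintype.card X := by linarith
  -- levels
  have hyK : ∀ j ≤ J, K ≤ y j := by
    intro j hj
    refine le_trans ?_ (hyj j hj).2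
    have h1 : (1 : ℝ) ≤ κ ^ j := one_le_pow₀ hκ.le
    calc K = K ^ (1 : ℝ) := (Real.rpow_one K).symm
      _ ≤ K ^ (κ ^ j : ℝ) := Real.rpow_le_rpow_of_exponent_le (by linarith) h1
  have hy0 : ∀ j ≤ J, 0 < y j := fun j hj => by linarith [hyK j hj]
  -- lower bound for the powers of the levels
  have hpow : ∀ j ≤ J, ∀ s : ℝ, 0 ≤ s → (n : ℝ) ^ (-(α * s)) ≤ y j ^ (-s) := by
    intro j hj s hs
    have h1 : ((n : ℝ) ^ α) ^ (-s) ≤ y j ^ (-s) :=
      Real.rpow_le_rpow_of_nonpos (hy0 j hj) (hyj j hj).1 (by linarith)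
    rw [← Real.rpow_mul hn0.le] at h1
    rwa [mul_neg] at h1
  have hdeg : ∀ j, ∀ u ∈ Win (dg vt) α κ K j, y j < (dg vt u : ℝ) ∧ (dg vt u : ℝ) ≤ y j ^ 2 := by
    intro j u hu
    simp only [Win, mem_filter, mem_univ, true_and] at hu
    exact hu
  have htail : ∀ j < J, ∀ U : Finset V, U.card ≤ j + 1 →
      c2 / 2 * n * y (j + 1) ^ (-a) ≤ ((∑ u ∈ Win (dg vt) α κ K (j + 1) \ U, dg vt u : ℕ) : ℝ) := by
    intro j hj U hU
    have h0 := hy0 (j + 1) hj
    have h1 : ((Win (dg vt) α κ K (j + 1) \ U).card : ℝ) * y (j + 1) ≤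
        ((∑ u ∈ Win (dg vt) α κ K (j + 1) \ U, dg vt u : ℕ) : ℝ) := by
      push_cast
      rw [← nsmul_eq_mul, ← sum_const]
      exact sum_le_sum fun u hu => ((hdeg (j + 1) u (mem_sdiff.1 hu).1).1).le
    refine le_trans ?_ h1
    have h2 : c2 * n * y (j + 1) ^ (-(1 + a)) - J ≤ ((Win (dg vt) α κ K (j + 1) \ U).card : ℝ) := by
      have h3 := hreg.win (j + 1) hj
      have h4 : (Win (dg vt) α κ K (j + 1)).card ≤ (Win (dg vt) α κ K (j + 1) \ U).card + U.card := by
        have := card_le_card_sdiff_add_card (s := Win (dg vt) α κ K (j + 1)) (t := U)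
        exact this
      have h5 : ((Win (dg vt) α κ K (j + 1)).card : ℝ) ≤
          ((Win (dg vt) α κ K (j + 1) \ U).card : ℝ) + J := by
        have : (Win (dg vt) α κ K (j + 1)).card ≤ (Win (dg vt) α κ K (j + 1) \ U).card + J := by omega
        exact_mod_cast this
      linarith
    have h6 : (J : ℝ) ≤ c2 / 2 * n * y (j + 1) ^ (-(1 + a)) := by
      have h7 := hpow (j + 1) hj (1 + a) (by linarith)
      have h8 : (n : ℝ) ^ (1 - α * (1 + a)) = n * (n : ℝ) ^ (-(α * (1 + a))) := by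
        rw [sub_eq_add_neg, Real.rpow_add hn0, Real.rpow_one]
      rw [h8] at hJ1
      have h9 : c2 / 2 * (n * (n : ℝ) ^ (-(α * (1 + a)))) ≤
          c2 / 2 * (n * y (j + 1) ^ (-(1 + a))) :=
        mul_le_mul_of_nonneg_left (mul_le_mul_of_nonneg_left h7 hn0.le) (by positivity)
      linarith
    have h10 : y (j + 1) ^ (-a) = y (j + 1) ^ (-(1 + a)) * y (j + 1) := by
      have : y (j + 1) ^ (-(1 + a)) * y (j + 1) = y (j + 1) ^ (-(1 + a)) * y (j + 1) ^ (1 : ℝ) := by
        rw [Real.rpow_one]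
      rw [this, ← Real.rpow_add h0]
      congr 1; ring
    rw [h10, ← mul_assoc]
    apply mul_le_mul_of_nonneg_right _ h0.le
    linarith
  have hmt : ∀ j < J, 2 * y j ≤ c2 / 2 * n * y (j + 1) ^ (-a) := by
    intro j hj
    have h0 := hy0 j hj.le
    have h1 : y j ≤ (n : ℝ) ^ (α / κ) := by
      have h2 : (y j ^ κ) ^ (κ⁻¹) = y j := by
        rw [← Real.rpow_mul h0.le, mul_inv_cancel₀ hκ0.ne', Real.rpow_one]
      have h3 : (y j ^ κ) ^ (κ⁻¹) ≤ ((n : ℝ) ^ α) ^ (κ⁻¹) := by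
        apply Real.rpow_le_rpow (by positivity) _ (by positivity)
        rw [← hstep j hj]
        exact (hyj (j + 1) hj).1
      rw [h2, ← Real.rpow_mul hn0.le] at h3
      exact h3
    have h2 := hpow (j + 1) hj a ha.le
    have h3 : 2 * (n : ℝ) ^ (α / κ) ≤ c2 / 2 * n * (n : ℝ) ^ (-(α * a)) := by
      have h4 : (n : ℝ) ^ (1 - a * α - α / κ) * (n : ℝ) ^ (α / κ) = n * (n : ℝ) ^ (-(α * a)) := by
        rw [← Real.rpow_add hn0]
        have : (n : ℝ) * (n : ℝ) ^ (-(α * a)) = (n : ℝ) ^ (1 : ℝ) * (n : ℝ) ^ (-(α * a)) := by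
          rw [Real.rpow_one]
        rw [this, ← Real.rpow_add hn0]
        congr 1; ring
      have h5 : 4 / c2 * (n : ℝ) ^ (α / κ) ≤ n * (n : ℝ) ^ (-(α * a)) := by
        rw [← h4]
        exact mul_le_mul_of_nonneg_right e4 (by positivity)
      have h6 : c2 / 2 * (4 / c2 * (n : ℝ) ^ (α / κ)) = 2 * (n : ℝ) ^ (α / κ) := by
        field_simp; ring
      rw [← h6, mul_assoc (c2 / 2)]
      exact mul_le_mul_of_nonneg_left h5 (by positivity)
    calc 2 * y j ≤ 2 * (n : ℝ) ^ (α / κ) := by linarith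
      _ ≤ c2 / 2 * n * (n : ℝ) ^ (-(α * a)) := h3
      _ ≤ c2 / 2 * n * y (j + 1) ^ (-a) := mul_le_mul_of_nonneg_left h2 (by positivity)
  -- application of the climbing lemma
  have happ := hclimb X V vt ρ Ch hCh p hp.le hp1 hρ (Win (dg vt) α κ K) J (fun r => y r ^ 2)
    (fun j => ⌊y j⌋₊) (fun j => ⌈c2 / 2 * n * y (j + 1) ^ (-a)⌉₊) (by omega)
    (fun i _ u hu => (hdeg i u hu).2) (fun i _ => sq_nonneg _)
    (fun j hj u hu => by
      have h1 := (hdeg j u hu).1
      exact (Nat.floor_lt (hy0 j hj.le).le).2 h1)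
    (fun j hj U hU => by
      apply Nat.ceil_le.2
      convert htail j hj U hU)
    (fun j hj => by
      have h1 : ((2 * ⌊y j⌋₊ : ℕ) : ℝ) ≤ 2 * y j := by
        push_cast
        have := Nat.floor_le (hy0 j hj.le).le
        linarith
      have h2 := hmt j hj
      have h3 := Nat.le_ceil (c2 / 2 * n * y (j + 1) ^ (-a))
      exact_mod_cast h1.trans (h2.trans h3))
    v hv
  refine happ.trans (ENNReal.ofReal_le_ofReal ?_)
  have hterm : ∀ j ∈ range J, (∏ r ∈ range j,
      (y r ^ 2 * Fintype.card X / ((Fintype.card X : ℝ) - 2 * r - 1))) *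
        Real.exp (-(p * (⌊y j⌋₊ : ℝ) * (⌈c2 / 2 * n * y (j + 1) ^ (-a)⌉₊ : ℝ) /
          (4 * Fintype.card X))) ≤ y j ^ (-M) := by
    intro j hj
    rw [mem_range] at hj
    have h0 := hy0 j hj.le
    refine le_trans ?_ (hY0 (y j) (hKY.trans (hyK j hj.le)))
    have hprod : (∏ r ∈ range j,
        (y r ^ 2 * Fintype.card X / ((Fintype.card X : ℝ) - 2 * r - 1))) ≤ y j ^ β := by
      refine le_trans ?_ (prod_le hβ1 hβ0 (fun i hi => hK2.trans (hyK i hi)) hstep j hj.le)
      apply Finset.prod_le_prod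
      · intro r hr
        rw [mem_range] at hr
        have h1 : ((2 * r + 1 : ℕ) : ℝ) ≤ Fintype.card X := by
          have : 2 * r + 1 ≤ Fintype.card X := by omega
          exact_mod_cast this
        push_cast at h1
        apply div_nonneg (by positivity) (by linarith)
      · intro r hr
        rw [mem_range] at hr
        have h1 : ((4 * r + 2 : ℕ) : ℝ) + 1 ≤ Fintype.card X := by
          have : 4 * r + 2 + 1 ≤ Fintype.card X := by omega
          exact_mod_cast this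
        push_cast at h1
        rw [div_le_iff₀ (by linarith)]
        nlinarith [sq_nonneg (y r)]
    apply mul_le_mul hprod _ (Real.exp_pos _).le (by positivity)
    apply Real.exp_le_exp.2
    apply neg_le_neg
    have h1 : y j / 2 ≤ (⌊y j⌋₊ : ℝ) := by
      have := Nat.lt_floor_add_one (y j)
      have h2 := hK2.trans (hyK j hj.le)
      linarith
    have h2 : c2 / 2 * n * y (j + 1) ^ (-a) ≤ (⌈c2 / 2 * n * y (j + 1) ^ (-a)⌉₊ : ℝ) :=
      Nat.le_ceil _
    have h3 : y (j + 1) ^ (-a) = y j ^ (-(a * κ)) := by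
      rw [hstep j hj, ← Real.rpow_mul h0.le]; congr 1; ring
    have h4 : y j ^ (1 - a * κ) = y j * y j ^ (-(a * κ)) := by
      rw [sub_eq_add_neg, Real.rpow_add h0, Real.rpow_one]
    have h5 : 0 < y j ^ (-(a * κ)) := Real.rpow_pos_of_pos h0 _
    rw [le_div_iff₀ (by positivity), h4]
    calc p * c2 / (16 * A) * (y j * y j ^ (-(a * κ))) * (4 * (Fintype.card X : ℝ))
        ≤ p * c2 / (16 * A) * (y j * y j ^ (-(a * κ))) * (4 * (A * n)) := by
          apply mul_le_mul_of_nonneg_left _ (by positivity)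
          linarith
      _ = p * (y j / 2) * (c2 / 2 * n * y j ^ (-(a * κ))) := by field_simp; ring
      _ ≤ p * (⌊y j⌋₊ : ℝ) * (⌈c2 / 2 * n * y (j + 1) ^ (-a)⌉₊ : ℝ) := by
          rw [← h3]
          apply mul_le_mul (mul_le_mul_of_nonneg_left h1 hp.le) h2 (by rw [h3]; positivity)
            (by positivity)
  refine (sum_le_sum hterm).trans ?_
  refine (sum_le hκ (by linarith) hM0.le (fun j hj => (hyj j hj.le).2) (hK1 K hKK)).trans ?_
  have hK0 : 0 < K := by linarith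
  have h1 : K ^ (-M) = K ^ (-(2 * κ)) * K⁻¹ := by
    rw [hM, ← Real.rpow_neg_one K, ← Real.rpow_add hK0]; congr 1; ring
  rw [h1]
  have h2 : 0 < K ^ (-(2 * κ)) := Real.rpow_pos_of_pos hK0 _
  have h3 : 2 * K⁻¹ ≤ 1 := by
    rw [← div_eq_mul_inv, div_le_one hK0]; exact hK2
  nlinarith

end Pool.Agent.Helper36.CP
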