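import Pool.Agent.Helper20.CP.Spec

/-!
# Blueprint CP, parts LEV and CN3
-/

set_option autoImplicit false

open Filter Topology

namespace Pool.Agent.Helper36.CP

open Pool.Agent.Helper20.CP

/-- Part LEV. -/
theorem lev : S_LEV := by
  intro α κ K hα hα1 hκ hK
  have hK0 : 0 < K := (Real.exp_pos 1).trans_le hK
  have hlK : 1 ≤ Real.log K := by
    rw [Real.le_log_iff_exp_le hK0]; exact hK
  have hlκ : 0 < Real.log κ := Real.log_pos hκ
  have hκ0 : 0 < κ := by linarith
  refine ⟨max 3 ⌈Real.exp (Real.log K / α)⌉₊, fun n hn => ?_⟩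
  have hn3 : (3 : ℝ) ≤ n := by
    have := le_trans (le_max_left _ _) hn
    exact_mod_cast this
  have hn0 : (0 : ℝ) < n := by linarith
  have hnK : Real.log K / α ≤ Real.log n := by
    rw [Real.le_log_iff_exp_le hn0]
    exact (Nat.le_ceil _).trans (by exact_mod_cast le_trans (le_max_right _ _) hn)
  have hln : 0 < Real.log n := Real.log_pos (by linarith)
  have hnK' : Real.log K ≤ α * Real.log n := by
    rw [div_le_iff₀ hα] at hnK; linarith
  set q := α * Real.log n / Real.log K with hq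
  have hlK0 : 0 < Real.log K := by linarith
  have hq1 : 1 ≤ q := by rw [hq, le_div_iff₀ hlK0]; linarith
  have hq0 : 0 < q := by linarith
  have hJ : Jn α κ K n = ⌊Real.log q / Real.log κ⌋₊ := rfl
  set J := Jn α κ K n with hJdef
  have hx0 : 0 ≤ Real.log q / Real.log κ := div_nonneg (Real.log_nonneg hq1) hlκ.le
  have hJle : (J : ℝ) ≤ Real.log q / Real.log κ := by
    rw [hJ]; exact Nat.floor_le hx0
  have hJlt : Real.log q / Real.log κ < J + 1 := by
    rw [hJ]; exact Nat.lt_floor_add_one _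
  have hpow1 : κ ^ (J : ℝ) ≤ q := by
    rw [div_eq_mul_inv, ← div_eq_mul_inv, le_div_iff₀ hlκ] at hJle
    rw [← Real.exp_log hq0, Real.rpow_def_of_pos hκ0]
    apply Real.exp_le_exp.2
    linarith
  have hpow2 : q < κ ^ ((J : ℝ) + 1) := by
    rw [div_lt_iff₀ hlκ] at hJlt
    rw [← Real.exp_log hq0, Real.rpow_def_of_pos hκ0]
    apply Real.exp_lt_exp.2
    linarith
  have hκJ : 0 < κ ^ (J : ℝ) := Real.rpow_pos_of_pos hκ0 _
  have hinv : κ ^ (((0 : ℕ) : ℝ) - J) = (κ ^ (J : ℝ))⁻¹ := by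
    rw [Nat.cast_zero, zero_sub, Real.rpow_neg hκ0.le]
  have hy0 : yl α κ K n 0 = (n : ℝ) ^ (α * (κ ^ (J : ℝ))⁻¹) := by
    unfold yl
    rw [← hJdef, hinv]
  have h1 : K ≤ yl α κ K n 0 := by
    rw [hy0, ← Real.exp_log hK0, Real.rpow_def_of_pos hn0]
    apply Real.exp_le_exp.2
    have h2 : Real.log K * κ ^ (J : ℝ) ≤ α * Real.log n := by
      rw [hq, le_div_iff₀ hlK0] at hpow1; linarith
    have h3 : Real.log n * (α * (κ ^ (J : ℝ))⁻¹) = α * Real.log n / κ ^ (J : ℝ) := by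
      rw [div_eq_mul_inv]; ring
    rw [h3, le_div_iff₀ hκJ]
    exact h2
  have h2 : yl α κ K n 0 ≤ K ^ κ := by
    rw [hy0, Real.rpow_def_of_pos hK0, Real.rpow_def_of_pos hn0]
    apply Real.exp_le_exp.2
    have h3 : α * Real.log n ≤ Real.log K * (κ ^ (J : ℝ) * κ) := by
      rw [Real.rpow_add hκ0, Real.rpow_one, hq, div_lt_iff₀ hlK0] at hpow2
      linarith
    have h4 : Real.log n * (α * (κ ^ (J : ℝ))⁻¹) = α * Real.log n / κ ^ (J : ℝ) := by
      rw [div_eq_mul_inv]; ring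
    rw [h4, div_le_iff₀ hκJ]
    linarith
  have hstep : ∀ j : ℕ, yl α κ K n j = yl α κ K n 0 ^ (κ ^ j : ℝ) := by
    intro j
    rw [hy0]
    unfold yl
    rw [← Real.rpow_mul hn0.le, ← hJdef, Real.rpow_sub hκ0, Real.rpow_natCast, div_eq_mul_inv]
    congr 1; ring
  have hκj : ∀ j : ℕ, (0 : ℝ) < κ ^ j := fun j => pow_pos hκ0 j
  refine ⟨h1, h2, fun j _ => ?_, ?_, fun j hj => ⟨?_, ?_⟩, ?_⟩
  · rw [hstep, hstep j, pow_succ, Real.rpow_mul]
    exact hK0.le.trans h1
  · unfold yl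
    rw [← hJdef, sub_self, Real.rpow_zero, mul_one]
  · unfold yl
    rw [← hJdef]
    apply Real.rpow_le_rpow_of_exponent_le (by linarith)
    have : κ ^ ((j : ℝ) - J) ≤ 1 := by
      apply Real.rpow_le_one_of_one_le_of_nonpos hκ.le
      have : (j : ℝ) ≤ J := by exact_mod_cast hj
      linarith
    nlinarith
  · rw [hstep]
    exact Real.rpow_le_rpow hK0.le h1 (hκj j).le
  · refine hJle.trans (div_le_div_of_nonneg_right ?_ hlκ.le)
    apply Real.log_le_log hq0
    rw [hq, div_le_iff₀ hlK0]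
    nlinarith

/-- `log log n` tends to infinity. -/
theorem tendsto_loglog : Tendsto (fun n : ℕ => Real.log (Real.log n)) atTop atTop :=
  Real.tendsto_log_atTop.comp (Real.tendsto_log_atTop.comp tendsto_natCast_atTop_atTop)

/-- Part CN3. -/
theorem cn3 : S_CN3 := by
  intro a c0 εr ha ha1 hc0 hε
  set L := |Real.log a| with hL
  have hla : Real.log a < 0 := Real.log_neg ha ha1
  have hL0 : 0 < L := abs_pos.2 hla.ne
  have hLe : Real.log a = -L := by rw [hL, abs_of_neg hla]; ring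
  set θ := (1 + εr / 4) / (1 + εr / 2) with hθ
  have hθ0 : 0 < θ := by positivity
  have hθ1 : θ < 1 := by
    rw [hθ, div_lt_one (by positivity)]; linarith
  have hα : 1 / 2 < (1 / 2 + 1 / (1 + a)) / 2 := by
    have : 1 / 2 < 1 / (1 + a) := by
      apply one_div_lt_one_div_of_lt <;> linarith
    linarith
  have hinv : 1 / (1 + a) < 1 := by
    rw [div_lt_one (by linarith)]; linarith
  refine ⟨(1 / 2 + 1 / (1 + a)) / 2, Real.exp (θ * L), c0 * (εr / 4), hα, by linarith, ?_, ?_, ?_,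
    by positivity, ?_⟩
  · have h1 : (1 / 2 + 1 / (1 + a)) / 2 * (1 + a) = (1 + a) / 4 + 1 / 2 := by
      field_simp; ring
    rw [h1]; linarith
  · rw [Real.one_lt_exp_iff]; positivity
  · have : a * Real.exp (θ * L) = Real.exp (-(1 - θ) * L) := by
      conv_lhs => rw [← Real.exp_log ha]
      rw [← Real.exp_add, hLe]; congr 1; ring
    rw [this, Real.exp_lt_one_iff]
    nlinarith
  · intro K a1 R hK ha1'
    have hα0 : 0 < (1 / 2 + 1 / (1 + a)) / 2 := by linarith
    obtain ⟨N, hN⟩ := lev ((1 / 2 + 1 / (1 + a)) / 2) (Real.exp (θ * L)) K hα0 (by linarith)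
      (by rw [Real.one_lt_exp_iff]; positivity) hK
    obtain ⟨N', hN'⟩ := Filter.eventually_atTop.1 (tendsto_loglog.eventually_ge_atTop
      (L * (2 * R * a1 + c0 * (1 + εr / 4)) / (c0 * εr)))
    refine ⟨max N N', fun n hn => ?_⟩
    obtain ⟨-, -, -, -, -, hJ⟩ := hN n (le_trans (le_max_left _ _) hn)
    have h1 := hN' n (le_trans (le_max_right _ _) hn)
    rw [Real.log_exp] at hJ
    set J := Jn ((1 / 2 + 1 / (1 + a)) / 2) (Real.exp (θ * L)) K n
    set ℓ := Real.log (Real.log n)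
    have h2 : (J : ℝ) * (c0 + c0 * (εr / 4)) ≤ ℓ / L * (c0 * (1 + εr / 2)) := by
      have h3 : ℓ / (θ * L) * (c0 + c0 * (εr / 4)) = ℓ / L * (c0 * (1 + εr / 2)) := by
        rw [hθ]; field_simp
      rw [← h3]
      exact mul_le_mul_of_nonneg_right hJ (by positivity)
    have h4 : 2 * R * a1 + c0 * (1 + εr / 4) ≤ ℓ / L * (c0 * εr) := by
      rw [div_le_iff₀ (by positivity)] at h1
      rw [div_mul_eq_mul_div, le_div_iff₀ hL0]
      linarith
    unfold LL
    rw [← hL]
    have h5 : 2 * (1 + εr) * c0 * (ℓ / L) = 2 * (ℓ / L * (c0 * (1 + εr / 2))) +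
        ℓ / L * (c0 * εr) := by ring
    rw [h5]
    nlinarith

end Pool.Agent.Helper36.CP
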